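import Pool.Agent.Helper556.Final

/-!
For every oracle `A` the tally vector space has no `NP^A`-simple subspace. In particular there
is no c.e. oracle `D` for which some subspace is both `NP^D`-supermaximal and `NP^D`-simple.

Idea of the proof. Let `S` be an `NP^A` subspace of infinite codimension and let `K` be the set
of positions that are not the leading position of a vector of `S`. It is infinite, and the span
of the `e k`, `k ∈ K`, meets `S` trivially. For a suitable exponentially growing `f`, a machine
working on a vector with leading position `f k` has enough time to find out by brute force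
whether `k ∈ K`. So the span `E` of the `e (f k)`, `k ∈ K` (of one parity), and all its tails are
in `P^A`. If `S` is simple, then `S` contains infinitely many vectors `m` of `E`. Replace every
such `m` by `m + L m`, where `L` sends `e (f k)` to `e k`. The result is an infinite `NP^A`
subspace that meets `S` trivially, a contradiction.
-/

namespace Pool.Agent.Results.MP_65a8de_lc.NoSimple

open Pool.Agent.Helper556.OM

/-- Sanity check: the machines can use their oracle. -/
theorem sanity_oracle (A : Set (List Bool)) : InNP A A := by
  classical
  refine ⟨⟨Option Bool, inferInstance, none, fun q =>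
    match q with
    | none => .ask 0 some
    | some b => .halt b⟩, 1, fun x => ?_⟩
  have hrun : ∀ w : ℕ → Bool, ∀ t, (Machine.run ⟨Option Bool, inferInstance, none, fun q =>
      match q with
      | none => .ask 0 some
      | some b => .halt b⟩ A (t + 1) w (Machine.init _ x)).1 = some (decide (x ∈ A)) := by
    intro w t
    rw [Machine.run]
    have h1 : Machine.Halted ⟨Option Bool, inferInstance, none, fun q =>
      match q with
      | none => .ask 0 some
      | some b => .halt b⟩ (Machine.step ⟨Option Bool, inferInstance, none, fun q =>
      match q with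
      | none => .ask 0 some
      | some b => .halt b⟩ A (w 0) (Machine.init _ x)) := ⟨_, rfl⟩
    rw [Machine.run_halted _ _ h1]
    simp only [Machine.step, Machine.init]
    congr
  constructor
  · intro w
    have := hrun w (x.length ^ 1)
    exact ⟨decide (x ∈ A), by rw [this]⟩
  · constructor
    · intro hx
      refine ⟨fun _ => true, ?_⟩
      unfold Machine.Accepts
      rw [hrun, decide_eq_true hx]
    · rintro ⟨w, hw⟩
      unfold Machine.Accepts at hw
      rw [hrun] at hw
      by_contra hx
      rw [decide_eq_false hx] at hw
      cases hw

/-- Sanity check: the whole space is an `NP` subspace for every oracle. -/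
theorem sanity_top (A : Set (List Bool)) {F : Type} [Field F] [Fintype F]
    (φ : F ≃ Fin (Fintype.card F)) (h0 : (φ 0 : ℕ) = 0) : IsNP A φ ⊤ := by
  have h1 := InNP.reduce (A := A) (r := fun _ => 1) (U.const 1) InNP.univ
  have e : codes φ ⊤ = {x | ∃ n, x = un n ∧ ∃ a', 1 = a' + 1 ∧ un a' ∈ Set.univ} := by
    ext x
    constructor
    · rintro ⟨v, -, rfl⟩
      exact ⟨code φ v, rfl, 0, rfl, trivial⟩
    · rintro ⟨n, rfl, -⟩
      obtain ⟨v, rfl⟩ := exists_code φ h0 n
      exact ⟨v, trivial, rfl⟩
  rw [IsNP, e]
  exact h1

/-- No subspace of the tally vector space is `NP^A`-simple, for any oracle `A`; hence no c.e.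
oracle `D` admits a subspace that is both `NP^D`-supermaximal and `NP^D`-simple. -/
theorem result (F : Type) [Field F] [Fintype F] (φ : F ≃ Fin (Fintype.card F))
    (h0 : (φ 0 : ℕ) = 0) :
    (∀ (A : Set (List Bool)) (S : Submodule F (ℕ →₀ F)), ¬ IsSimple A φ S) ∧
    ¬ ∃ D : Set (List Bool), REPred (fun x : List Bool => x ∈ D) ∧
      ∃ S : Submodule F (ℕ →₀ F), IsSupermaximal D φ S ∧ IsSimple D φ S :=
  ⟨fun _ S => not_simple φ h0 S, fun ⟨_, _, S, _, hS⟩ => not_simple φ h0 S hS⟩

end Pool.Agent.Results.MP_65a8de_lc.NoSimple
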